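import Pool.Agent.Helper41.LD4.Defs
import Pool.Agent.Helper68.LD.WB1
import Pool.Agent.Helper34.LD.WA

/-!
# Project LD4, block A2: increments of the martingale of one functional
-/

set_option autoImplicit false

namespace Pool.Agent.Helper68.LD4

open Set MeasureTheory Filter Topology
open Pool.Agent.Helper33.LD (ii_of_bdd)
open Pool.Agent.Helper34.LD (inv_lt_one' geo_sum av_abs_le)
open Pool.Agent.Helper41.LD (av var)
open Pool.Agent.Helper68.LD (child_mem)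
open Pool.Agent.Helper41.LD4

variable {G : ℕ → ℝ → ℝ} {β w : ℝ} {n : ℕ} {a ℓ : ℝ}

theorem ii68 (hw : Wd G β w n a ℓ) (j : ℕ) (p q : ℝ) : IntervalIntegrable (fun x => G j x) volume p q :=
  ii_of_bdd (hw.meas j) (hw.bdd j) p q

theorem A_le68 (hw : Wd G β w n a ℓ) {j : ℕ} (hj : n ≤ j) : |A G j a ℓ| ≤ w * β⁻¹ ^ (j - n) := by
  unfold A av
  rw [abs_div, abs_of_pos hw.pos, div_le_iff₀ hw.pos]
  exact hw.tail j hj

theorem A_le_one68 (hw : Wd G β w n a ℓ) (j : ℕ) (a' : ℝ) {ℓ' : ℝ} (hℓ' : 0 < ℓ') : |A G j a' ℓ'| ≤ 1 :=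
  av_abs_le (fun x => hw.bdd j x) a' hℓ'

theorem summable_A68 (hw : Wd G β w n a ℓ) : Summable fun j => A G j a ℓ := by
  obtain ⟨h0, h1⟩ := inv_lt_one' hw.hβ
  rw [← summable_nat_add_iff n]
  refine Summable.of_norm_bounded (g := fun j => w * β⁻¹ ^ j) ((summable_geometric_of_lt_one h0.le h1).mul_left _) fun j => ?_
  have h2 := A_le68 hw (j := j + n) (by omega)
  rw [Nat.add_sub_cancel] at h2
  rw [Real.norm_eq_abs]
  exact h2

theorem M_tail68 (hw : Wd G β w n a ℓ) {m' : ℕ} (hm : n ≤ m') :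
    |M G a ℓ - ∑ j ∈ Finset.range m', A G j a ℓ| ≤ w * β⁻¹ ^ (m' - n) * (β / (β - 1)) := by
  obtain ⟨h0, h1⟩ := inv_lt_one' hw.hβ
  have hs := summable_A68 hw
  have h2 : M G a ℓ - ∑ j ∈ Finset.range m', A G j a ℓ = ∑' j, A G (j + m') a ℓ := by
    unfold M
    rw [← hs.sum_add_tsum_nat_add m']
    ring
  rw [h2, ← geo_sum hw.hβ, ← Real.norm_eq_abs]
  have h3 : HasSum (fun j : ℕ => w * β⁻¹ ^ (m' - n) * β⁻¹ ^ j) (w * β⁻¹ ^ (m' - n) * (1 - β⁻¹)⁻¹) :=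
    (hasSum_geometric_of_lt_one h0.le h1).mul_left _
  refine tsum_of_norm_bounded h3 fun j => ?_
  rw [Real.norm_eq_abs]
  refine (A_le68 hw (j := j + m') (by omega)).trans (le_of_eq ?_)
  rw [mul_assoc, ← pow_add]
  congr 2
  omega

theorem A_const68 {r : ℕ} (h : NB G n r a ℓ) {j : ℕ} (hj : j + r < n)
    {a' ℓ' : ℝ} (ha : a ≤ a') (hℓ' : 0 < ℓ') (he : a' + ℓ' ≤ a + ℓ) : A G j a' ℓ' = G j a := by
  unfold A av
  have h1 : ∫ x in a'..(a' + ℓ'), G j x = ∫ _x in a'..(a' + ℓ'), G j a := by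
    refine intervalIntegral.integral_congr fun x hx => ?_
    rw [uIcc_of_le (by linarith)] at hx
    exact h j hj x ⟨ha.trans hx.1, hx.2.trans he⟩
  rw [h1, intervalIntegral.integral_const, add_sub_cancel_left, smul_eq_mul]
  field_simp

/-- an increment of one average -/
noncomputable def dA (G : ℕ → ℝ → ℝ) (j : ℕ) (a ℓ : ℝ) (B b : ℕ) : ℝ :=
  A G j (a + b * (ℓ / B)) (ℓ / B) - A G j a ℓ

/-- the difference of the tails -/
noncomputable def dT (G : ℕ → ℝ → ℝ) (m : ℕ) (a ℓ : ℝ) (B b : ℕ) : ℝ :=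
  (M G (a + b * (ℓ / B)) (ℓ / B) - ∑ j ∈ Finset.range m, A G j (a + b * (ℓ / B)) (ℓ / B)) -
    (M G a ℓ - ∑ j ∈ Finset.range m, A G j a ℓ)

theorem inc_eq {L r : ℕ} (hℓ : 0 < ℓ) (h : NB G n r a ℓ) {B b : ℕ} (hb : b < B) :
    M G (a + b * (ℓ / B)) (ℓ / B) - M G a ℓ =
      ∑ j ∈ Finset.Ico (n - r) (n + L), dA G j a ℓ B b + dT G (n + L) a ℓ B b := by
  obtain ⟨h1, h2, h3⟩ := child_mem (a := a) hℓ hb
  have hz : ∑ j ∈ Finset.range (n - r), dA G j a ℓ B b = 0 := by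
    refine Finset.sum_eq_zero fun j hj => ?_
    have hj' : j + r < n := by
      have := Finset.mem_range.mp hj
      omega
    unfold dA
    rw [A_const68 h hj' h1 h2 h3, A_const68 h hj' le_rfl hℓ le_rfl, sub_self]
  have hs : ∑ j ∈ Finset.range (n + L), dA G j a ℓ B b =
      ∑ j ∈ Finset.Ico (n - r) (n + L), dA G j a ℓ B b := by
    rw [← Finset.sum_range_add_sum_Ico _ (show n - r ≤ n + L by omega), hz, zero_add]
  rw [← hs]
  unfold dA dT
  rw [Finset.sum_sub_distrib]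
  ring

theorem dT_le (hw : Wd G β w n a ℓ) {L B b : ℕ} (hw' : Wd G β w (n + L) (a + b * (ℓ / B)) (ℓ / B)) :
    |dT G (n + L) a ℓ B b| ≤ 2 * (w * (β / (β - 1))) := by
  unfold dT
  have hβ := hw.hβ
  have h1 := M_tail68 hw' (le_refl (n + L))
  rw [Nat.sub_self, pow_zero, mul_one] at h1
  have h2 := M_tail68 hw (Nat.le_add_right n L)
  have hc : 0 ≤ β / (β - 1) := div_nonneg (by linarith) (by linarith)
  have h5 : β⁻¹ ^ (n + L - n) ≤ 1 := pow_le_one₀ (inv_nonneg.2 (by linarith)) (inv_le_one_of_one_le₀ hβ.le)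
  have h6 : w * β⁻¹ ^ (n + L - n) * (β / (β - 1)) ≤ w * (β / (β - 1)) :=
    mul_le_mul_of_nonneg_right (mul_le_of_le_one_right hw.w0 h5) hc
  refine (abs_sub _ _).trans ?_
  linarith

theorem dA_le (hw : Wd G β w n a ℓ) (j : ℕ) {B b : ℕ} (hb : b < B) : |dA G j a ℓ B b| ≤ 2 := by
  unfold dA
  obtain ⟨h1, h2, h3⟩ := child_mem (a := a) hw.pos hb
  refine (abs_sub _ _).trans ?_
  linarith [A_le_one68 hw j (a + b * (ℓ / B)) h2, A_le_one68 hw j a hw.pos]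

/-- increments -/
theorem M_inc (hw : Wd G β w n a ℓ) {r L B b : ℕ} (h : NB G n r a ℓ) (hB : 1 ≤ B) (hb : b < B)
    (hw' : Wd G β w (n + L) (a + b * (ℓ / B)) (ℓ / B)) :
    |M G (a + b * (ℓ / B)) (ℓ / B) - M G a ℓ| ≤ 2 * L + 2 * r + 2 * w * (β / (β - 1)) := by
  have _ := hB
  rw [inc_eq (n := n) (L := L) hw.pos h hb]
  have h1 := dT_le hw hw'
  have h3 : |∑ j ∈ Finset.Ico (n - r) (n + L), dA G j a ℓ B b| ≤ 2 * (L + r) := by
    refine (Finset.abs_sum_le_sum_abs _ _).trans ?_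
    refine (Finset.sum_le_sum fun j _ => dA_le hw j hb).trans ?_
    rw [Finset.sum_const, Nat.card_Ico, nsmul_eq_mul]
    have : ((n + L - (n - r) : ℕ) : ℝ) ≤ L + r := by
      have : n + L - (n - r) ≤ L + r := by omega
      exact_mod_cast this
    linarith
  refine (abs_add_le _ _).trans ((add_le_add h3 h1).trans (le_of_eq ?_))
  ring

end Pool.Agent.Helper68.LD4
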