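import Pool.Agent.Helper68.LD4.A2
import Pool.Agent.Helper23.LD3.MV

/-!
# Project LD4, block A3: second moments of the increments
-/

set_option autoImplicit false

namespace Pool.Agent.Helper68.LD4

open Set MeasureTheory Filter Topology
open Pool.Agent.Helper33.LD (ii_of_bdd)
open Pool.Agent.Helper41.LD (av var)
open Pool.Agent.Helper68.LD (av_children sum_av_sub_sq_le child_mem av_sq_le)
open Pool.Agent.Helper23.LD3 (sum_pow_le_of_inj sum_abs_pow_le)
open Pool.Agent.Helper41.LD4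

variable {G : ℕ → ℝ → ℝ} {β w : ℝ} {n : ℕ} {a ℓ : ℝ}

theorem mid_sq68 (hw : Wd G β w n a ℓ) {L B : ℕ} (hB : 1 ≤ B) :
    ∑ b ∈ Finset.range B, (∑ j ∈ Finset.Ico n (n + L), A G j (a + b * (ℓ / B)) (ℓ / B)) ^ 2 ≤
      B * (2 * (β / (β - 1)) * L * w) := by
  have hβ := hw.hβ
  have hℓ := hw.pos
  have hB0 : (0:ℝ) < B := by exact_mod_cast hB
  have hx0 : 0 ≤ β⁻¹ := inv_nonneg.2 (by linarith)
  have hx1 : β⁻¹ < 1 := inv_lt_one_of_one_lt₀ hβ
  have hC : (1 - β⁻¹)⁻¹ = β / (β - 1) := by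
    have : β - 1 ≠ 0 := by linarith
    have : β ≠ 0 := by linarith
    field_simp
  set Ψ : ℝ → ℝ := fun x => ∑ j ∈ Finset.Ico n (n + L), G j x with hΨ
  have hprod : ∀ j₁ j₂ : ℕ, ∀ p q : ℝ, IntervalIntegrable (fun x => G j₁ x * G j₂ x) volume p q := by
    intro j₁ j₂ p q
    refine ii_of_bdd ((hw.meas j₁).mul (hw.meas j₂)) (fun t => ?_) p q
    show |G j₁ t * G j₂ t| ≤ 1
    rw [abs_mul]
    exact mul_le_one₀ (hw.bdd j₁ t) (abs_nonneg _) (hw.bdd j₂ t)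
  have hΨi : ∀ p q, IntervalIntegrable Ψ volume p q := by
    intro p q
    rw [hΨ]
    have := IntervalIntegrable.sum (μ := volume) (a := p) (b := q) (Finset.Ico n (n + L))
      (f := fun j x => G j x) (fun j _ => ii68 hw j p q)
    simpa [Finset.sum_fn] using this
  have hsq : ∀ x, Ψ x ^ 2 = ∑ j₁ ∈ Finset.Ico n (n + L), ∑ j₂ ∈ Finset.Ico n (n + L), G j₁ x * G j₂ x := by
    intro x
    rw [hΨ, pow_two, Finset.sum_mul_sum]
  have hΨ2 : ∀ p q, IntervalIntegrable (fun x => Ψ x ^ 2) volume p q := by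
    intro p q
    simp only [hsq]
    have := IntervalIntegrable.sum (μ := volume) (a := p) (b := q) (Finset.Ico n (n + L))
      (f := fun j₁ x => ∑ j₂ ∈ Finset.Ico n (n + L), G j₁ x * G j₂ x)
      (fun j₁ _ => by
        have := IntervalIntegrable.sum (μ := volume) (a := p) (b := q) (Finset.Ico n (n + L))
          (f := fun j₂ x => G j₁ x * G j₂ x) (fun j₂ _ => hprod j₁ j₂ p q)
        simpa [Finset.sum_fn] using this)
    simpa [Finset.sum_fn] using this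
  have h1 : ∀ b ∈ Finset.range B, (∑ j ∈ Finset.Ico n (n + L), A G j (a + b * (ℓ / B)) (ℓ / B)) ^ 2 ≤
      av (fun x => Ψ x ^ 2) (a + b * (ℓ / B)) (ℓ / B) := by
    intro b _
    have e : ∑ j ∈ Finset.Ico n (n + L), A G j (a + b * (ℓ / B)) (ℓ / B) = av Ψ (a + b * (ℓ / B)) (ℓ / B) := by
      unfold A av
      rw [← Finset.sum_div, hΨ, intervalIntegral.integral_finsetSum (fun j _ => ii68 hw j _ _)]
    rw [e]
    exact av_sq_le hΨi hΨ2 _ (div_pos hℓ hB0)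
  refine (Finset.sum_le_sum h1).trans ?_
  rw [av_children hΨ2 a hℓ hB]
  refine mul_le_mul_of_nonneg_left ?_ hB0.le
  unfold av
  rw [div_le_iff₀ hℓ]
  simp only [hsq]
  rw [intervalIntegral.integral_finsetSum (fun j₁ _ => by
    have := IntervalIntegrable.sum (μ := volume) (a := a) (b := a + ℓ) (Finset.Ico n (n + L))
      (f := fun j₂ x => G j₁ x * G j₂ x) (fun j₂ _ => hprod j₁ j₂ _ _)
    simpa [Finset.sum_fn] using this)]
  have h2 : ∀ j₁ ∈ Finset.Ico n (n + L), ∫ x in a..(a + ℓ), ∑ j₂ ∈ Finset.Ico n (n + L), G j₁ x * G j₂ x ≤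
      w * ℓ * (2 * (β / (β - 1))) := by
    intro j₁ hj₁
    rw [intervalIntegral.integral_finsetSum (fun j₂ _ => hprod j₁ j₂ _ _)]
    have h3 : ∀ j₂ ∈ Finset.Ico n (n + L), ∫ x in a..(a + ℓ), G j₁ x * G j₂ x ≤
        w * ℓ * β⁻¹ ^ ((j₂ - j₁) + (j₁ - j₂)) := by
      intro j₂ hj₂
      rw [Finset.mem_Ico] at hj₁ hj₂
      refine (le_abs_self _).trans ?_
      rcases le_total j₁ j₂ with hle | hle
      · refine (hw.cov j₁ j₂ hj₁.1 hle).trans (le_of_eq ?_)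
        have : (j₂ - j₁) + (j₁ - j₂) = j₂ - j₁ := by omega
        rw [this]
        ring
      · have e : ∫ x in a..(a + ℓ), G j₁ x * G j₂ x = ∫ x in a..(a + ℓ), G j₂ x * G j₁ x := by
          congr 1
          ext x
          ring
        rw [e]
        refine (hw.cov j₂ j₁ hj₂.1 hle).trans (le_of_eq ?_)
        have : (j₂ - j₁) + (j₁ - j₂) = j₁ - j₂ := by omega
        rw [this]
        ring
    refine (Finset.sum_le_sum h3).trans ?_
    rw [← Finset.mul_sum]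
    refine mul_le_mul_of_nonneg_left ?_ (mul_nonneg hw.w0 hℓ.le)
    rw [← hC]
    exact sum_abs_pow_le hx0 hx1 _ j₁
  refine (Finset.sum_le_sum h2).trans (le_of_eq ?_)
  rw [Finset.sum_const, Nat.card_Ico, Nat.add_sub_cancel_left, nsmul_eq_mul]
  ring

/-- second moments of the increments -/
theorem M_var (hw : Wd G β w n a ℓ) {r L B : ℕ} (h : NB G n r a ℓ) (hB : 1 ≤ B)
    (hw' : ∀ b < B, Wd G β w (n + L) (a + b * (ℓ / B)) (ℓ / B)) (hL1 : 1 ≤ L) :
    ∑ b ∈ Finset.range B, (M G (a + b * (ℓ / B)) (ℓ / B) - M G a ℓ) ^ 2 ≤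
      B * (2 * W G n r a ℓ + 44 * (β / (β - 1)) ^ 2 * L * w * (1 + w)) := by
  have hβ := hw.hβ
  have hℓ := hw.pos
  have hw0 := hw.w0
  have hx0 : 0 ≤ β⁻¹ := inv_nonneg.2 (by linarith)
  have hx1 : β⁻¹ < 1 := inv_lt_one_of_one_lt₀ hβ
  have hCe : (1 - β⁻¹)⁻¹ = β / (β - 1) := by
    have : β - 1 ≠ 0 := by linarith
    have : β ≠ 0 := by linarith
    field_simp
  set C : ℝ := β / (β - 1) with hC
  have hC1 : 1 ≤ C := by
    rw [hC, le_div_iff₀ (by linarith)]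
    linarith
  have hB0 : (0:ℝ) < B := by exact_mod_cast hB
  have hL0 : (1:ℝ) ≤ L := by exact_mod_cast hL1
  set P : ℕ → ℝ := fun b => ∑ j ∈ Finset.Ico (n - r) n, dA G j a ℓ B b with hP
  set Y : ℕ → ℝ := fun b => ∑ j ∈ Finset.Ico n (n + L), A G j (a + b * (ℓ / B)) (ℓ / B) with hY
  set Z : ℕ → ℝ := fun b => dT G (n + L) a ℓ B b - ∑ j ∈ Finset.Ico n (n + L), A G j a ℓ with hZ
  have hdec : ∀ b ∈ Finset.range B, (M G (a + b * (ℓ / B)) (ℓ / B) - M G a ℓ) ^ 2 ≤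
      2 * P b ^ 2 + (4 * Y b ^ 2 + 4 * Z b ^ 2) := by
    intro b hb
    rw [inc_eq (n := n) (L := L) hℓ h (Finset.mem_range.mp hb)]
    have e : ∑ j ∈ Finset.Ico (n - r) (n + L), dA G j a ℓ B b + dT G (n + L) a ℓ B b = P b + (Y b + Z b) := by
      rw [hP, hY, hZ]
      simp only
      rw [← Finset.sum_Ico_consecutive _ (show n - r ≤ n by omega) (show n ≤ n + L by omega)]
      have : ∑ j ∈ Finset.Ico n (n + L), dA G j a ℓ B b = ∑ j ∈ Finset.Ico n (n + L), A G j (a + b * (ℓ / B)) (ℓ / B) -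
          ∑ j ∈ Finset.Ico n (n + L), A G j a ℓ := by
        unfold dA
        rw [Finset.sum_sub_distrib]
      rw [this]
      ring
    rw [e]
    nlinarith [sq_nonneg (P b - (Y b + Z b)), sq_nonneg (Y b - Z b)]
  -- the pending part
  have hPs : ∑ b ∈ Finset.range B, P b ^ 2 ≤ B * W G n r a ℓ := by
    have h1 : ∀ b ∈ Finset.range B, P b ^ 2 ≤ r * ∑ j ∈ Finset.Ico (n - r) n, dA G j a ℓ B b ^ 2 := by
      intro b _
      have h2 : (∑ j ∈ Finset.Ico (n - r) n, dA G j a ℓ B b) ^ 2 ≤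
          ((Finset.Ico (n - r) n).card : ℝ) * ∑ j ∈ Finset.Ico (n - r) n, dA G j a ℓ B b ^ 2 :=
        sq_sum_le_card_mul_sum_sq
      refine h2.trans ?_
      have h3 : (0:ℝ) ≤ ∑ j ∈ Finset.Ico (n - r) n, dA G j a ℓ B b ^ 2 := Finset.sum_nonneg fun j _ => sq_nonneg _
      refine mul_le_mul_of_nonneg_right ?_ h3
      rw [Nat.card_Ico]
      have : n - (n - r) ≤ r := by omega
      exact_mod_cast this
    refine (Finset.sum_le_sum h1).trans ?_
    rw [← Finset.mul_sum, Finset.sum_comm]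
    unfold W
    rw [← mul_assoc (B:ℝ), mul_comm (B:ℝ), mul_assoc (r:ℝ), Finset.mul_sum (a := (B:ℝ))]
    have hr0 : (0:ℝ) ≤ r := Nat.cast_nonneg r
    refine mul_le_mul_of_nonneg_left ?_ hr0
    refine Finset.sum_le_sum fun j _ => ?_
    exact sum_av_sub_sq_le (hw.meas j) (hw.bdd j) a hℓ hB
  have hYs : ∑ b ∈ Finset.range B, Y b ^ 2 ≤ B * (2 * C * L * w) := mid_sq68 hw hB
  have hZb : ∀ b ∈ Finset.range B, Z b ^ 2 ≤ 9 * C ^ 2 * w ^ 2 := by
    intro b hb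
    have h1 := dT_le hw (hw' b (Finset.mem_range.mp hb))
    have h2 : |∑ j ∈ Finset.Ico n (n + L), A G j a ℓ| ≤ w * C := by
      refine (Finset.abs_sum_le_sum_abs _ _).trans ?_
      refine (Finset.sum_le_sum fun j hj => A_le68 hw (Finset.mem_Ico.mp hj).1).trans ?_
      rw [← Finset.mul_sum]
      refine mul_le_mul_of_nonneg_left ?_ hw0
      rw [← hCe]
      apply sum_pow_le_of_inj hx0 hx1
      intro a ha b hb hab
      have ha' := (Finset.mem_Ico.1 (Finset.mem_coe.1 ha)).1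
      have hb' := (Finset.mem_Ico.1 (Finset.mem_coe.1 hb)).1
      simp only at hab
      omega
    have h3 : |Z b| ≤ 3 * C * w := by
      rw [hZ]
      refine (abs_sub _ _).trans ?_
      linarith
    rw [← sq_abs]
    calc |Z b| ^ 2 ≤ (3 * C * w) ^ 2 := pow_le_pow_left₀ (abs_nonneg _) h3 2
      _ = _ := by ring
  refine (Finset.sum_le_sum hdec).trans ?_
  rw [Finset.sum_add_distrib, Finset.sum_add_distrib, ← Finset.mul_sum, ← Finset.mul_sum, ← Finset.mul_sum]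
  have hZs : ∑ b ∈ Finset.range B, Z b ^ 2 ≤ B * (9 * C ^ 2 * w ^ 2) := by
    refine (Finset.sum_le_sum hZb).trans (le_of_eq ?_)
    rw [Finset.sum_const, Finset.card_range, nsmul_eq_mul]
  have hfin : 4 * (B * (2 * C * L * w)) + 4 * (B * (9 * C ^ 2 * w ^ 2)) ≤
      B * (44 * C ^ 2 * L * w * (1 + w)) := by
    have hL' : (0:ℝ) ≤ L := by linarith
    have h1 : C * (L * w) ≤ C ^ 2 * (L * w) :=
      mul_le_mul_of_nonneg_right (by nlinarith) (mul_nonneg hL' hw0)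
    have h2 : C ^ 2 * w ^ 2 ≤ C ^ 2 * w ^ 2 * L := le_mul_of_one_le_right (by positivity) hL0
    have h3 : 0 ≤ C ^ 2 * (L * w) := by positivity
    have h4 : 0 ≤ C ^ 2 * w ^ 2 * L := by positivity
    have h5 : 4 * (2 * (C * (L * w))) + 4 * (9 * (C ^ 2 * w ^ 2)) ≤ 44 * (C ^ 2 * (L * w)) + 44 * (C ^ 2 * w ^ 2 * L) := by
      linarith
    calc 4 * (B * (2 * C * L * w)) + 4 * (B * (9 * C ^ 2 * w ^ 2))
        = B * (4 * (2 * (C * (L * w))) + 4 * (9 * (C ^ 2 * w ^ 2))) := by ring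
      _ ≤ B * (44 * (C ^ 2 * (L * w)) + 44 * (C ^ 2 * w ^ 2 * L)) := mul_le_mul_of_nonneg_left h5 hB0.le
      _ = _ := by ring
  have : (B:ℝ) * (2 * W G n r a ℓ + 44 * C ^ 2 * L * w * (1 + w)) =
      2 * (B * W G n r a ℓ) + B * (44 * C ^ 2 * L * w * (1 + w)) := by ring
  rw [this]
  linarith

end Pool.Agent.Helper68.LD4
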